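import Pool.Agent.Y752.QF.Stm
import Pool.Agent.Y752.SR.K8

/-!
# Project QF: partial sums of zeta and zeta at the shifted points (S_ZT)
-/

set_option autoImplicit false

namespace Pool.Agent.Y945.QF

open Complex Filter Topology MeasureTheory Set
open Pool.Agent.Y752.QF
open Pool.Agent.TH612.GS (mP zN)
open Pool.Agent.TH228.GS (prod_sub_le zN_le hh hh_nonneg H1 H1_meas H1_int)
open scoped ENNReal

noncomputable section

lemma le_H1 (M : ℕ) {T v : ℝ} (h1 : T ^ (1 / 2 : ℝ) ≤ v) (h2 : v ≤ T) :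
    ENNReal.ofReal (hh M v) ≤ H1 M T v := by
  unfold H1
  rw [indicator_of_mem (show v ∈ Icc _ _ from ⟨h1, h2⟩)]

lemma lint_add_self {H : ℝ → ℝ≥0∞} (hH : Measurable H) :
    ∫⁻ a, H (a + a) ≤ ∫⁻ v, H v := by
  have h2 : (2 : ℝ) ≠ 0 := two_ne_zero
  have h := Real.smul_map_volume_mul_left h2
  calc ∫⁻ a, H (a + a) ≤ ENNReal.ofReal |(2 : ℝ)| * ∫⁻ a, H (a + a) := by
        apply le_mul_of_one_le_left bot_le
        rw [abs_of_pos (by norm_num : (0 : ℝ) < 2)]
        norm_num
    _ = ∫⁻ v, H v := by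
        conv_rhs => rw [← h]
        rw [lintegral_smul_measure, lintegral_map hH (measurable_const_mul 2), smul_eq_mul]
        simp only [two_mul]

/-- integration over one coordinate -/
lemma fub' {ι : Type} [Fintype ι] (T : ℝ) (p q : ι) {H : ℝ → ℝ≥0∞}
    (hH : Measurable H) :
    ∫⁻ γ, H (γ p + γ q) ∂(mP ι T) ≤ (∫⁻ v, H v) * ENNReal.ofReal T ^ (Fintype.card ι - 1) := by
  classical
  unfold mP
  have hm : Measurable fun γ : ι → ℝ => H (γ p + γ q) :=
    hH.comp ((measurable_pi_apply p).add (measurable_pi_apply q))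
  rw [lintegral_eq_lmarginal_univ (0 : ι → ℝ), lmarginal_erase' _ hm (Finset.mem_univ p)]
  refine (lmarginal_mono (g := fun _ => ∫⁻ v, H v) ?_ (0 : ι → ℝ)).trans ?_
  · intro x
    by_cases hpq : p = q
    · subst hpq
      have e1 : ∀ a : ℝ, H (Function.update x p a p + Function.update x p a p) = H (a + a) := by
        intro a
        rw [Function.update_self]
      simp only [e1]
      refine (setLIntegral_le_lintegral _ _).trans ?_
      exact lint_add_self hH
    · have e1 : ∀ a : ℝ, H (Function.update x p a p + Function.update x p a q) = H (a + x q) := by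
        intro a
        rw [Function.update_self, Function.update_of_ne (Ne.symm hpq)]
      simp only [e1]
      refine (setLIntegral_le_lintegral _ _).trans ?_
      rw [lintegral_add_right_eq_self H (x q)]
  · unfold lmarginal
    rw [lintegral_const, Measure.pi_univ]
    simp only [Measure.restrict_apply MeasurableSet.univ, univ_inter, Real.volume_Icc, sub_zero,
      Finset.prod_const, Finset.card_univ, Fintype.card_coe]
    rw [Finset.card_erase_of_mem (Finset.mem_univ p), Finset.card_univ]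

theorem ZT : S_ZT := by
  intro k
  obtain ⟨C₁, T₁, hC₁, hT₁, hone⟩ := Pool.Agent.Y752.SR.one' Pool.Agent.TH928.GS.t_MV
  set m : ℕ := (Ed k).card with hm
  set K₁ : ℝ := 2 * max C₁ 2 with hK₁
  have hmx : (2 : ℝ) ≤ max C₁ 2 := le_max_right _ _
  have hK₁0 : 0 < K₁ := by rw [hK₁]; linarith
  set D : ℝ := K₁ ^ (2 * m) * m * (m * (4 * C₁)) with hD
  have hD0 : 0 ≤ D := by rw [hD]; positivity
  refine ⟨D + 1, T₁, 2 * m + 1, by linarith, hT₁, ?_⟩
  intro H θ N hH hθ hN hNH
  have hH3 : 3 ≤ H := hT₁.trans hH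
  have hH0 : 0 < H := by linarith
  set T : ℝ := 2 * H with hTdef
  have hT : T₁ ≤ T := by linarith
  have hT3 : 3 ≤ T := by linarith
  have hT1 : 1 ≤ T := by linarith
  have hNT : (N : ℝ) ≤ T := by linarith
  obtain ⟨hz, hi⟩ := hone T N hT hN hNT
  have hN1 : (1 : ℝ) ≤ N := by exact_mod_cast hN
  have hN0 : (0 : ℝ) < N := by linarith
  have hLH : 1 ≤ Real.log H := by
    rw [Real.le_log_iff_exp_le (by linarith)]
    have := Real.exp_one_lt_d9
    linarith
  have hLT : 1 ≤ Real.log T := by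
    rw [Real.le_log_iff_exp_le (by linarith)]
    have := Real.exp_one_lt_d9
    linarith
  have hLT2 : Real.log T ≤ 2 * Real.log H := by
    have h1 : Real.log T = Real.log 2 + Real.log H := by
      rw [hTdef, Real.log_mul (by norm_num) hH0.ne']
    have h2 : Real.log 2 ≤ Real.log H := Real.log_le_log (by norm_num) (by linarith)
    linarith
  have hlogN : Real.log N ≤ Real.log T := Real.log_le_log hN0 hNT
  set K : ℝ := max C₁ 2 * Real.log T with hK
  have hK2 : 2 * Real.log T ≤ K := mul_le_mul_of_nonneg_right hmx (by linarith)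
  have hK1 : 1 ≤ K := by linarith
  have hKC : C₁ * Real.log T ≤ K := mul_le_mul_of_nonneg_right (le_max_left _ _) (by linarith)
  have hKK : K ≤ K₁ * Real.log H := by
    rw [hK, hK₁]
    nlinarith
  have hzN : ∀ v : ℝ, ‖zN N (1 + I * v)‖ ≤ K := fun v => (zN_le N v).trans (by linarith)
  set A : ℝ := K ^ (2 * m) * m with hA
  have hA0 : 0 ≤ A := by rw [hA]; positivity
  -- the square roots
  have hsq : T ^ (1 / 2 : ℝ) ≤ 2 * H ^ (1 / 2 : ℝ) := by
    rw [hTdef, Real.mul_rpow (by norm_num) hH0.le]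
    apply mul_le_mul_of_nonneg_right _ (Real.rpow_nonneg hH0.le _)
    calc (2 : ℝ) ^ (1 / 2 : ℝ) ≤ 2 ^ (1 : ℝ) :=
          Real.rpow_le_rpow_of_exponent_le (by norm_num) (by norm_num)
      _ = 2 := Real.rpow_one 2
  have hT12 : (1 : ℝ) ≤ T ^ (1 / 2 : ℝ) := Real.one_le_rpow hT1 (by norm_num)
  -- the majorant
  set G : (Fin k → ℝ) → ℝ≥0∞ := fun γ => ENNReal.ofReal A *
      ∑ e ∈ Ed k, H1 N T (γ e.1 + γ e.2) with hG
  have hpt : ∀ γ ∈ Sep2 k H, ENNReal.ofReal
      (‖QQ2 N γ - ∏ e ∈ Ed k, riemannZeta (1 + le γ e)‖ ^ 2) ≤ G γ := by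
    intro γ hγ
    set v : Fin k × Fin k → ℝ := fun e => γ e.1 + γ e.2 with hv
    have hv1 : ∀ e, T ^ (1 / 2 : ℝ) ≤ v e := by
      intro e
      have a1 := (hγ e.1).1
      have a2 := (hγ e.2).1
      simp only [hv]
      linarith
    have hv2 : ∀ e, v e ≤ T := by
      intro e
      have a1 := (hγ e.1).2
      have a2 := (hγ e.2).2
      simp only [hv]
      linarith
    have hle : ∀ e, le γ e = I * (v e : ℂ) := by
      intro e
      simp only [hv, le]
      push_cast
      ring
    have hz' : ∀ e, ‖riemannZeta (1 + I * (v e : ℂ))‖ ≤ K := by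
      intro e
      have h0 : 0 < v e := by linarith [hv1 e]
      refine (hz (v e) ?_ ?_).trans hKC
      · rw [abs_of_pos h0]; exact hT12.trans (hv1 e)
      · rw [abs_of_pos h0]; exact hv2 e
    have h2 := prod_sub_le (Ed k) (fun e => zN N (1 + I * (v e : ℂ)))
      (fun e => riemannZeta (1 + I * (v e : ℂ))) hK1 (fun e _ => hzN (v e)) (fun e _ => hz' e)
    rw [← hm] at h2
    have h3 : ‖QQ2 N γ - ∏ e ∈ Ed k, riemannZeta (1 + le γ e)‖ ≤ K ^ m *
        ∑ e ∈ Ed k, ‖zN N (1 + I * (v e : ℂ)) - riemannZeta (1 + I * (v e : ℂ))‖ := by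
      unfold QQ2
      simp only [hle]
      exact h2
    have h4 : (∑ e ∈ Ed k,
        ‖zN N (1 + I * (v e : ℂ)) - riemannZeta (1 + I * (v e : ℂ))‖) ^ 2 ≤
        m * ∑ e ∈ Ed k, hh N (v e) := by
      have := sq_sum_le_card_mul_sum_sq (s := Ed k)
        (f := fun e => ‖zN N (1 + I * (v e : ℂ)) - riemannZeta (1 + I * (v e : ℂ))‖)
      rw [← hm] at this
      refine this.trans (le_of_eq ?_)
      congr 1
      refine Finset.sum_congr rfl fun e _ => ?_
      unfold hh
      rw [norm_sub_rev]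
    have h5 : ‖QQ2 N γ - ∏ e ∈ Ed k, riemannZeta (1 + le γ e)‖ ^ 2 ≤
        A * ∑ e ∈ Ed k, hh N (v e) := by
      calc ‖QQ2 N γ - ∏ e ∈ Ed k, riemannZeta (1 + le γ e)‖ ^ 2 ≤ (K ^ m *
            ∑ e ∈ Ed k,
              ‖zN N (1 + I * (v e : ℂ)) - riemannZeta (1 + I * (v e : ℂ))‖) ^ 2 :=
            pow_le_pow_left₀ (norm_nonneg _) h3 2
        _ = K ^ (2 * m) * (∑ e ∈ Ed k,
              ‖zN N (1 + I * (v e : ℂ)) - riemannZeta (1 + I * (v e : ℂ))‖) ^ 2 := by
            rw [mul_comm 2 m, pow_mul]; ring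
        _ ≤ K ^ (2 * m) * (m * ∑ e ∈ Ed k, hh N (v e)) :=
            mul_le_mul_of_nonneg_left h4 (by positivity)
        _ = _ := by rw [hA]; ring
    calc ENNReal.ofReal (‖QQ2 N γ - ∏ e ∈ Ed k, riemannZeta (1 + le γ e)‖ ^ 2)
        ≤ ENNReal.ofReal (A * ∑ e ∈ Ed k, hh N (v e)) := ENNReal.ofReal_le_ofReal h5
      _ = ENNReal.ofReal A * ∑ e ∈ Ed k, ENNReal.ofReal (hh N (v e)) := by
          rw [ENNReal.ofReal_mul hA0, ENNReal.ofReal_sum_of_nonneg fun e _ => hh_nonneg N _]
      _ ≤ _ := by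
          rw [hG]
          simp only
          gcongr with e
          exact le_H1 N (hv1 e) (hv2 e)
  have hmeas : ∀ e : Fin k × Fin k, Measurable fun γ : Fin k → ℝ =>
      H1 N T (γ e.1 + γ e.2) := fun e =>
    (H1_meas N T).comp ((measurable_pi_apply _).add (measurable_pi_apply _))
  have hmeasG : Measurable G :=
    (Finset.measurable_fun_sum _ fun e _ => hmeas e).const_mul _
  have hint : ∫⁻ γ, G γ ∂(mP (Fin k) H) ≤
      ENNReal.ofReal ((D + 1) * Real.log H ^ (2 * m + 1) * H ^ k / N) := by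
    calc ∫⁻ γ, G γ ∂(mP (Fin k) H)
        = ENNReal.ofReal A * ∑ e ∈ Ed k,
            ∫⁻ γ, H1 N T (γ e.1 + γ e.2) ∂(mP (Fin k) H) := by
          rw [hG, lintegral_const_mul _ (Finset.measurable_fun_sum _ fun e _ => hmeas e),
            lintegral_finsetSum _ fun e _ => hmeas e]
      _ ≤ ENNReal.ofReal A * ∑ e ∈ Ed k,
            ENNReal.ofReal ((C₁ * Real.log T * T / N) * H ^ (k - 1)) := by
          gcongr with e
          refine (fub' H e.1 e.2 (H1_meas N T)).trans ?_
          rw [H1_int N hT1, Fintype.card_fin, ENNReal.ofReal_mul (by positivity),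
            ENNReal.ofReal_pow hH0.le]
          gcongr
          exact hi
      _ ≤ ENNReal.ofReal ((D + 1) * Real.log H ^ (2 * m + 1) * H ^ k / N) := by
          rw [Finset.sum_const, ← hm, nsmul_eq_mul, ← ENNReal.ofReal_natCast,
            ← ENNReal.ofReal_mul (by positivity), ← ENNReal.ofReal_mul hA0]
          refine ENNReal.ofReal_le_ofReal ?_
          rcases Nat.eq_zero_or_pos k with hk | hk
          · have hm0 : m = 0 := by
              rw [hm]
              subst hk
              simp [Ed]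
            rw [hm0]
            simp only [Nat.cast_zero, zero_mul, mul_zero]
            positivity
          · have e2 : H * H ^ (k - 1) = H ^ k := by
              rw [← pow_succ']
              congr 1
              omega
            have hLH0 : 0 ≤ Real.log H := by linarith
            have e3 : A * ((m : ℝ) * ((C₁ * Real.log T * T / N) * H ^ (k - 1))) =
                K ^ (2 * m) * m * (m * (2 * C₁)) * Real.log T * H ^ k / N := by
              rw [← e2, hA, hTdef]
              ring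
            rw [e3]
            have e4 : K ^ (2 * m) * m * (m * (2 * C₁)) * Real.log T ≤
                (K₁ * Real.log H) ^ (2 * m) * m * (m * (2 * C₁)) * (2 * Real.log H) := by
              gcongr
            have e5 : (K₁ * Real.log H) ^ (2 * m) * m * (m * (2 * C₁)) * (2 * Real.log H) =
                D * Real.log H ^ (2 * m + 1) := by
              rw [hD, mul_pow]
              ring
            rw [e5] at e4
            have e6 : D * Real.log H ^ (2 * m + 1) ≤ (D + 1) * Real.log H ^ (2 * m + 1) := by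
              gcongr
              linarith
            have e7 := e4.trans e6
            gcongr
  have hsub : Sep2 k H ∩ {γ | θ ≤ ‖QQ2 N γ - ∏ e ∈ Ed k, riemannZeta (1 + le γ e)‖ ^ 2} ⊆
      {γ | ENNReal.ofReal θ ≤ G γ} := by
    rintro γ ⟨hγ1, hγ2⟩
    exact (ENNReal.ofReal_le_ofReal hγ2).trans (hpt γ hγ1)
  have hθ0 : ENNReal.ofReal θ ≠ 0 := by simpa using hθ
  calc mP (Fin k) H (Sep2 k H ∩
        {γ | θ ≤ ‖QQ2 N γ - ∏ e ∈ Ed k, riemannZeta (1 + le γ e)‖ ^ 2})
      ≤ mP (Fin k) H {γ | ENNReal.ofReal θ ≤ G γ} := measure_mono hsub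
    _ ≤ (∫⁻ γ, G γ ∂(mP (Fin k) H)) / ENNReal.ofReal θ :=
        meas_ge_le_lintegral_div hmeasG.aemeasurable hθ0 ENNReal.ofReal_ne_top
    _ ≤ ENNReal.ofReal ((D + 1) * Real.log H ^ (2 * m + 1) * H ^ k / N) / ENNReal.ofReal θ := by
        gcongr
    _ = ENNReal.ofReal ((D + 1) * Real.log H ^ (2 * m + 1) * H ^ k / (N * θ)) := by
        rw [← ENNReal.ofReal_div_of_pos hθ, div_div]

end

end Pool.Agent.Y945.QF
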